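import Pool.Agent.H.MP_4fd693_gt.A

set_option autoImplicit false

namespace Pool.Agent.Results.MP_4fd693_gt.PartC

open Pool.Agent.H.MP_4fd693_gt Set Cardinal

theorem result : ∃ (K : Type) (_ : TopologicalSpace K), CompactSpace K ∧ T2Space K ∧
    FirstCountableTopology K ∧ WeaklyFirstCountable K ∧ ∃ Z : Set K, ¬ WeaklyThetaRefinable Z := by
  let ι := (ℵ₁ : Cardinal.{0}).ord.ToType
  have hι : #ι = ℵ₁ := mk_ord_toType _
  have cIic : ∀ a : ι, (Iic a).Countable := fun a => by
    rw [← Iio_insert]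
    exact ((countable_iff_lt_aleph_one _).2 (mk_Iio_toType_ord_lt a)).insert a
  haveI : Nonempty ι := by
    rw [← mk_ne_zero_iff, hι]; exact (aleph_pos 1).ne'
  have hX : #(ι × ℝ) = 𝔠 := by
    simp only [mk_prod, lift_id, hι, mk_real]
    exact mul_eq_right aleph0_le_continuum aleph_one_le_continuum (aleph_pos 1).ne'
  obtain ⟨x⟩ : Nonempty (ι × ℝ ≃ Icc (0 : ℝ) 1) := by
    rw [← Cardinal.eq, hX, mk_Icc_real one_pos]
  obtain ⟨e⟩ : Nonempty (ℝ ≃ (ℕ → ℕ → ι × ℝ)) := by
    rw [← Cardinal.eq, ← power_def, ← power_def, hX, mk_nat, continuum_power_aleph0,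
      continuum_power_aleph0, mk_real]
  refine build x x.injective (InvImage.wf Prod.fst (wellFounded_lt (α := ι))) (fun a => e a.2) ?_
  intro F P hP
  obtain ⟨a, ha⟩ : ∃ a : ι, a ∉ Prod.fst '' P ∪ ⋃ n, ⋃ j, Iic (F n j).1 := by
    by_contra h
    push Not at h
    have c : (Prod.fst '' P ∪ ⋃ n, ⋃ j, Iic (F n j).1).Countable :=
      (hP.image _).union (countable_iUnion fun n => countable_iUnion fun j => cIic _)
    have := (countable_iff_lt_aleph_one _).1 (c.mono fun a _ => h a : (univ : Set ι).Countable)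
    rw [mk_univ, hι] at this
    exact lt_irrefl _ this
  simp only [mem_union, mem_iUnion, not_or, not_exists, mem_Iic, not_le] at ha
  exact ⟨(a, e.symm F), fun h => ha.1 ⟨_, h, rfl⟩, e.apply_symm_apply F, ha.2⟩

end Pool.Agent.Results.MP_4fd693_gt.PartC
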